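import Pool.Agent.H67.Pl.Basic
import Pool.Agent.H2.T2.Defs

/-!
# The field rigidity theorem in the form used by the analytic part
-/

open MeasureTheory
open scoped ComplexConjugate Real

namespace Pool.Agent.H50.Pl

open Pool.Agent.H67.Pl (cu Zf)

theorem norm_sq3 {x : ℂ} (hx : x ∈ Pool.Agent.H67.Pl.sq (-1 - Complex.I) 3) : ‖x‖ ≤ 4 := by
  obtain ⟨h1, h2, h3, h4⟩ := hx
  simp only [Complex.sub_re, Complex.neg_re, Complex.one_re, Complex.I_re, Complex.sub_im,
    Complex.neg_im, Complex.one_im, Complex.I_im] at h1 h2 h3 h4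
  have hr : |x.re| ≤ 2 := abs_le.2 ⟨by linarith, by linarith⟩
  have hi : |x.im| ≤ 2 := abs_le.2 ⟨by linarith, by linarith⟩
  have := Complex.norm_le_abs_re_add_abs_im x
  linarith

theorem frx_of {a₁ a₂ : ℂ} (h : Pool.Agent.H2.T2.FRx a₁ a₂) :
    Pool.Agent.H67.Pl.FRx a₁ a₂ := by
  obtain ⟨C, hC⟩ := h
  refine ⟨2 * C, ?_⟩
  intro η δ u₀ u₁ u₂ G hη hη2 hδ hδC m0 m1 m2 mG hG hall
  have hη4 : 0 < η / 2 := by linarith
  have hsq : η ^ 2 ≤ η / 2 := by nlinarith
  have hδ' : δ ≤ (η / 2) ^ C := by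
    refine hδC.trans ?_
    rw [pow_mul]
    exact pow_le_pow_left₀ (by positivity) hsq C
  have hinv : 1 / η ≤ 1 / (η / 2) := one_div_le_one_div_of_le hη4 (by linarith)
  refine hC (η / 2) δ u₀ u₁ u₂ G hη4 (by linarith) hδ hδ' m0 m1 m2 mG ?_ ?_ ?_ ?_ ?_ ?_ ?_
  · intro x hx
    exact ⟨(hall x hx).2.1, (hall x hx).2.2.1⟩
  · intro x hx
    refine (norm_sq3 (hall x hx).1).trans ?_
    rw [le_div_iff₀ hη4]
    linarith
  · intro x hx
    exact (hall x hx).2.2.2.1
  · intro x hx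
    exact (hall x hx).2.2.2.2.1
  · intro x hx
    exact (by linarith : η / 2 ≤ η).trans (hall x hx).2.2.2.2.2.1
  · intro x hx
    exact (hall x hx).2.2.2.2.2.2.trans hinv
  · have hfin : volume G ≠ ⊤ := by
      intro htop
      rw [Measure.real, htop, ENNReal.toReal_top] at hG
      linarith
    calc ENNReal.ofReal (η / 2) ≤ ENNReal.ofReal (volume.real G) :=
          ENNReal.ofReal_le_ofReal (by linarith)
      _ = volume G := ENNReal.ofReal_toReal hfin

end Pool.Agent.H50.Pl
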